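import Mathlib
import Pool.Agent.W_MP_34e65c_co.Defs
import Pool.Agent.W_MP_34e65c_co.Main

namespace Pool.Agent.Results.MP_34e65c_co.NonStarTreesAbundant

open Pool.Agent.W_MP_34e65c_co

/-- Every finite tree that is not a star is `s_q`-abundant, for every `q ≥ 2`. -/
theorem result (q : ℕ) (hq : 2 ≤ q) {W : Type} [Fintype W] (T : SimpleGraph W) (hT : T.IsTree)
    (hns : ¬ IsStar T) : IsAbundant q T :=
  main T hT hns q hq

end Pool.Agent.Results.MP_34e65c_co.NonStarTreesAbundant
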